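import Mathlib

/-!
Partition regularity of `2x + 2√2 y = w z³` over the totally positive elements of `ℤ√2`
(MP_15abe0_co): definitions.

`box Λ` is the set of all `a + b√2` with `2Λ ≤ a < 4Λ`, `0 ≤ b < Λ`; all its elements are totally
positive when `Λ > 0`.  A type is a pair `(κ, Λ)` of positive integers; it stands for the set
`κ · box Λ`.
-/

namespace Pool.Agent.helper1.PR

open Finset

/-- the box `2Λ ≤ re < 4Λ`, `0 ≤ im < Λ` -/
noncomputable def box (Λ : ℕ) : Finset (ℤ√2) :=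
  ((Ico (2 * (Λ : ℤ)) (4 * Λ)) ×ˢ (Ico (0 : ℤ) Λ)).map
    ⟨fun p => (⟨p.1, p.2⟩ : ℤ√2), fun p q h => by
      have h1 := congrArg Zsqrtd.re h
      have h2 := congrArg Zsqrtd.im h
      exact Prod.ext h1 h2⟩

theorem mem_box {Λ : ℕ} {x : ℤ√2} :
    x ∈ box Λ ↔ (2 * (Λ : ℤ) ≤ x.re ∧ x.re < 4 * Λ) ∧ (0 ≤ x.im ∧ x.im < Λ) := by
  simp only [box, mem_map, mem_product, mem_Ico, Prod.exists]
  constructor
  · rintro ⟨a, b, h, rfl⟩
    exact h
  · intro h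
    exact ⟨x.re, x.im, h, rfl⟩

theorem sum_box {Λ : ℕ} {E : Type*} [AddCommMonoid E] (F : ℤ√2 → E) :
    ∑ x ∈ box Λ, F x = ∑ a ∈ Ico (2 * (Λ : ℤ)) (4 * Λ), ∑ b ∈ Ico (0 : ℤ) Λ, F ⟨a, b⟩ := by
  rw [box, sum_map, sum_product]
  rfl

theorem card_box (Λ : ℕ) : #(box Λ) = 2 * Λ ^ 2 := by
  simp only [box, card_map, card_product, Int.card_Ico]
  have h1 : (4 * (Λ : ℤ) - 2 * Λ).toNat = 2 * Λ := by omega
  have h2 : ((Λ : ℤ) - 0).toNat = Λ := by omega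
  rw [h1, h2]; ring

/-- the label of level `(M, s)` of `x` in the box of size `Λ`: residues modulo `M` and the number
of the small square of side `Λ / s` -/
def lab (M s Λ : ℕ) (x : ℤ√2) : ℤ × ℤ × ℤ × ℤ :=
  (x.re % M, x.im % M, x.re * s / Λ, x.im * s / Λ)

/-- all labels of level `(M, s)` -/
noncomputable def labs (M s : ℕ) : Finset (ℤ × ℤ × ℤ × ℤ) :=
  Ico (0 : ℤ) M ×ˢ Ico (0 : ℤ) M ×ˢ Ico (2 * (s : ℤ)) (4 * s) ×ˢ Ico (0 : ℤ) s

/-- density of `f` on the cell with label `ℓ` -/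
noncomputable def dens {α β : Type*} [DecidableEq β] (X : Finset α) (π : α → β) (f : α → ℝ)
    (ℓ : β) : ℝ :=
  (∑ x ∈ X with π x = ℓ, f x) / #{x ∈ X | π x = ℓ}

/-- density of `f` on the cell of label `ℓ` of level `(M, s)` in the box of size `Λ` -/
noncomputable def cden (M s Λ : ℕ) (f : ℤ√2 → ℝ) (ℓ : ℤ × ℤ × ℤ × ℤ) : ℝ :=
  dens (box Λ) (lab M s Λ) f ℓ

/-- average of `f` over the cell of `x` of level `(M, s)` in the box of size `Λ` -/
noncomputable def cav (M s Λ : ℕ) (f : ℤ√2 → ℝ) (x : ℤ√2) : ℝ :=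
  cden M s Λ f (lab M s Λ x)

/-- energy of level `(M, s)` -/
noncomputable def energy (M s Λ : ℕ) (f : ℤ√2 → ℝ) : ℝ :=
  (∑ x ∈ box Λ, (cav M s Λ f x) ^ 2) / #(box Λ)

/-- mean square of the change of the cell average from level `(M, s)` to level `(M', s')` -/
noncomputable def inc (M s M' s' Λ : ℕ) (f : ℤ√2 → ℝ) : ℝ :=
  (∑ x ∈ box Λ, (cav M' s' Λ f x - cav M s Λ f x) ^ 2) / #(box Λ)

/-- mean of `f` over the box -/
noncomputable def mdens (Λ : ℕ) (f : ℤ√2 → ℝ) : ℝ := (∑ x ∈ box Λ, f x) / #(box Λ)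

/-- the function `f - (cell average of f)` on the box, `0` outside -/
noncomputable def dev (M s Λ : ℕ) (f : ℤ√2 → ℝ) (x : ℤ√2) : ℝ :=
  if x ∈ box Λ then f x - cav M s Λ f x else 0

/-- local average of `g` over `x + ν [0, l)²` -/
noncomputable def locav (ν l : ℕ) (g : ℤ√2 → ℝ) (x : ℤ√2) : ℝ :=
  (∑ a ∈ range l, ∑ b ∈ range l, g (x + ⟨(ν : ℤ) * a, (ν : ℤ) * b⟩)) / (l : ℝ) ^ 2

/-! ### the mean on types -/

/-- types -/
abbrev S : Type := ℕ+ × ℕ+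

/-- bounded functions on types -/
def Bd (F : S → ℝ) : Prop := ∃ C : ℝ, ∀ s, |F s| ≤ C

/-- `m` is an invariant mean on the bounded functions on the semigroup `S` of types -/
structure IsMean (m : (S → ℝ) → ℝ) : Prop where
  add : ∀ F G, Bd F → Bd G → m (fun s => F s + G s) = m F + m G
  smul : ∀ (c : ℝ) F, Bd F → m (fun s => c * F s) = c * m F
  mono : ∀ F G, Bd F → Bd G → (∀ s, F s ≤ G s) → m F ≤ m G
  one : m (fun _ => 1) = 1
  inv : ∀ (g : S) F, Bd F → m (fun s => F (g * s)) = m F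

open Classical in
/-- indicator function of a set of types -/
noncomputable def ind (U : Set S) : S → ℝ := fun s => if s ∈ U then 1 else 0

/-- `U` has mean one -/
def Full (m : (S → ℝ) → ℝ) (U : Set S) : Prop := m (ind U) = 1

/-- the function `x ↦ [c (κ x) = i]` -/
noncomputable def fc {r : ℕ} (c : ℤ√2 → Fin r) (i : Fin r) (κ : ℕ) (x : ℤ√2) : ℝ :=
  if c ((κ : ℤ√2) * x) = i then 1 else 0

/-! ### the configuration -/

/-- pairs `(w, y)` in the two boxes with `y ≡ w` modulo `q = Q' √2`, that is modulo `2Q'` in the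
first and modulo `Q'` in the second coordinate -/
noncomputable def Om (Q' Lw Ly : ℕ) : Finset (ℤ√2 × ℤ√2) :=
  {p ∈ box Lw ×ˢ box Ly | (2 * (Q' : ℤ)) ∣ p.1.re - p.2.re ∧ (Q' : ℤ) ∣ p.1.im - p.2.im}

/-- `(w - y) / (Q' √2)` -/
def tt (Q' : ℕ) (p : ℤ√2 × ℤ√2) : ℤ√2 :=
  ⟨(p.1.im - p.2.im) / Q', (p.1.re - p.2.re) / (2 * Q')⟩

/-- the value of `x` for given `(w, y)` -/
def xx (Q' : ℕ) (N : ℤ√2) (p : ℤ√2 × ℤ√2) : ℤ√2 := N * p.1 + tt Q' p

/-- `z³` is close to `2 Z³` -/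
def Near (δ : ℝ) (Z : ℕ) (z : ℤ√2) : Prop :=
  |((z ^ 3).re : ℝ) - 2 * (Z : ℝ) ^ 3| ≤ δ * (Z : ℝ) ^ 3 ∧
    |((z ^ 3).im : ℝ)| ≤ δ * (Z : ℝ) ^ 3

/-- `w` is far from the boundary of its small square of side `L / s`: in both coordinates the
number of its subsquare of side `L / (s G)` is neither the first nor the last one -/
def GoodW (s G L : ℕ) (w : ℤ√2) : Prop :=
  (1 ≤ (w.re * (s * G) / L) % G ∧ (w.re * (s * G) / L) % G + 1 < G) ∧
    (1 ≤ (w.im * (s * G) / L) % G ∧ (w.im * (s * G) / L) % G + 1 < G)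

instance (s G L : ℕ) : DecidablePred (GoodW s G L) := fun w => by
  unfold GoodW; infer_instance

end Pool.Agent.helper1.PR
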