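import Pool.Agent.helper1.PR.Key3
import Pool.Agent.helper74.PR.A
import Pool.Agent.helper17.PR.B
import Pool.Agent.helper4.PR.C
import Pool.Agent.helper42.PR.G
import Pool.Agent.helper52.PR.I

/-!
PR project: final assembly.
-/

namespace Pool.Agent.helper1.PR

open Finset

/-- totally positive, in terms of integers -/
def TP (n : ℤ√2) : Prop := 0 < n.re ∧ 2 * n.im ^ 2 < n.re ^ 2

theorem TP_mul {κ : ℕ} (hκ : 0 < κ) {v : ℤ√2} (hre0 : 0 < v.re) (h3 : 0 ≤ v.im)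
    (h4 : 2 * v.im ≤ v.re) : TP ((κ : ℤ√2) * v) := by
  have hκ' : (0 : ℤ) < κ := by exact_mod_cast hκ
  have hre : ((κ : ℤ√2) * v).re = κ * v.re := by simp
  have him : ((κ : ℤ√2) * v).im = κ * v.im := by simp
  refine ⟨by rw [hre]; positivity, ?_⟩
  rw [hre, him]
  have h5 : 2 * v.im ^ 2 < v.re ^ 2 := by
    nlinarith
  have : 2 * ((κ : ℤ) * v.im) ^ 2 = κ ^ 2 * (2 * v.im ^ 2) := by ring
  rw [this, mul_pow]
  exact mul_lt_mul_of_pos_left h5 (by positivity)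

theorem TP_mul_box {κ Λ : ℕ} (hκ : 0 < κ) {v : ℤ√2} (hv : v ∈ box Λ) :
    TP ((κ : ℤ√2) * v) := by
  rw [mem_box] at hv
  obtain ⟨⟨h1, _⟩, h3, h4⟩ := hv
  exact TP_mul hκ (by omega) h3 (by omega)

theorem exists_min_pos {r : ℕ} (f : Fin r → ℝ) :
    ∃ ν : ℝ, 0 < ν ∧ ν ≤ 1 ∧ ∀ i, 0 < f i → ν ≤ f i := by
  classical
  by_cases h : ∃ i, 0 < f i
  · obtain ⟨i0, hi0⟩ := h
    have : Nonempty {i // 0 < f i} := ⟨⟨i0, hi0⟩⟩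
    obtain ⟨j, hj⟩ := Finite.exists_min (fun i : {i // 0 < f i} => f i)
    refine ⟨min 1 (f j), lt_min one_pos j.2, min_le_left _ _, fun i hi => ?_⟩
    exact (min_le_right _ _).trans (hj ⟨i, hi⟩)
  · refine ⟨1, one_pos, le_rfl, fun i hi => absurd ⟨i, hi⟩ h⟩

theorem fc_bounds {r : ℕ} (c : ℤ√2 → Fin r) (i : Fin r) (κ : ℕ) (x : ℤ√2) :
    0 ≤ fc c i κ x ∧ fc c i κ x ≤ 1 := by
  unfold fc; split_ifs <;> norm_num

theorem fc_ne_zero {r : ℕ} {c : ℤ√2 → Fin r} {i : Fin r} {κ : ℕ} {x : ℤ√2}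
    (h : fc c i κ x ≠ 0) : c ((κ : ℤ√2) * x) = i := by
  by_contra h'
  apply h
  unfold fc
  rw [if_neg h']

theorem mdens_bounds {Λ : ℕ} {f : ℤ√2 → ℝ} (hf : ∀ x, 0 ≤ f x ∧ f x ≤ 1) :
    0 ≤ mdens Λ f ∧ mdens Λ f ≤ 1 := by
  unfold mdens
  constructor
  · exact div_nonneg (sum_nonneg fun x _ => (hf x).1) (Nat.cast_nonneg _)
  · apply div_le_one_of_le₀ _ (Nat.cast_nonneg _)
    calc ∑ x ∈ box Λ, f x ≤ ∑ x ∈ box Λ, (1 : ℝ) := sum_le_sum fun x _ => (hf x).2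
      _ = #(box Λ) := by simp

/-- rounding -/
theorem floor_close {δ a b : ℝ} (hδ : 0 < δ) (ha : 0 ≤ a) (hb : 0 ≤ b)
    (h : ⌊a / δ⌋₊ = ⌊b / δ⌋₊) : |a - b| ≤ δ := by
  have a1 := Nat.floor_le (div_nonneg ha hδ.le)
  have a2 := Nat.lt_floor_add_one (a / δ)
  have b1 := Nat.floor_le (div_nonneg hb hδ.le)
  have b2 := Nat.lt_floor_add_one (b / δ)
  rw [h] at a1 a2
  rw [le_div_iff₀ hδ] at a1 b1
  rw [div_lt_iff₀ hδ] at a2 b2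
  rw [abs_le]; constructor <;> nlinarith

/-- the profile of a type -/
noncomputable def prof (Q0 s0 n : ℕ) (δ : ℝ) {r : ℕ} (c : ℤ√2 → Fin r) (i : Fin r) (s : S)
    (ℓ : {ℓ // ℓ ∈ labs Q0 s0}) : Fin (n + 1) :=
  Fin.ofNat (n + 1) (⌊cden Q0 s0 s.2 (fc c i s.1) ℓ.1 / δ⌋₊)

theorem prof_close {Q0 s0 : ℕ} {δ : ℝ} (hδ : 0 < δ) {r : ℕ} {c : ℤ√2 → Fin r} {i : Fin r}
    {s t : S} (h : prof Q0 s0 ⌈1 / δ⌉₊ δ c i s = prof Q0 s0 ⌈1 / δ⌉₊ δ c i t)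
    {ℓ : ℤ × ℤ × ℤ × ℤ} (hℓ : ℓ ∈ labs Q0 s0) :
    |cden Q0 s0 s.2 (fc c i s.1) ℓ - cden Q0 s0 t.2 (fc c i t.1) ℓ| ≤ δ := by
  have h1 := congrFun h ⟨ℓ, hℓ⟩
  have bd : ∀ s : S, ⌊cden Q0 s0 s.2 (fc c i s.1) ℓ / δ⌋₊ < ⌈1 / δ⌉₊ + 1 := by
    intro s
    have : cden Q0 s0 s.2 (fc c i s.1) ℓ ≤ 1 := cden_le_one _ _ _ (fun x => (fc_bounds _ _ _ x).2) _
    have h2 : cden Q0 s0 s.2 (fc c i s.1) ℓ / δ ≤ ⌈1 / δ⌉₊ :=
      (div_le_div_of_nonneg_right this hδ.le).trans (Nat.le_ceil _)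
    have := Nat.floor_mono h2
    rw [Nat.floor_natCast] at this
    omega
  have h2 : ⌊cden Q0 s0 s.2 (fc c i s.1) ℓ / δ⌋₊ = ⌊cden Q0 s0 t.2 (fc c i t.1) ℓ / δ⌋₊ := by
    have h3 := congrArg Fin.val h1
    simp only [prof, Fin.val_ofNat] at h3
    rwa [Nat.mod_eq_of_lt (bd s), Nat.mod_eq_of_lt (bd t)] at h3
  exact floor_close hδ (cden_nonneg _ _ _ (fun x => (fc_bounds _ _ _ x).1) _)
    (cden_nonneg _ _ _ (fun x => (fc_bounds _ _ _ x).1) _) h2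

/-- `Q'` for exponent `j` -/
def Qj (Q0 j : ℕ) : ℕ := Q0 * (2 * Q0) ^ (j - 1)

theorem two_Qj {Q0 j : ℕ} (hj : 1 ≤ j) : 2 * Qj Q0 j = (2 * Q0) ^ j := by
  obtain ⟨k, rfl⟩ := Nat.exists_eq_add_of_le' hj
  unfold Qj
  rw [Nat.add_sub_cancel, pow_succ]; ring

theorem Qj_pos {Q0 j : ℕ} (h : 0 < Q0) : 0 < Qj Q0 j := by unfold Qj; positivity

/-- the configuration of the types of `z` -/
theorem z_config {m : (S → ℝ) → ℝ} (hm : IsMean m) {r : ℕ} (c : ℤ√2 → Fin r) (K E : ℕ)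
    {Q0 T0 : ℕ} (hQ0 : 0 < Q0) (hT0 : 0 < T0) {δ : ℝ} (hδ : 0 < δ) (n : ℕ) :
    ∃ τ : ℕ → S, ∃ d : ℕ → ℕ → S, ∃ col : ℕ → ℕ → ℕ → Fin r,
      ∃ Zf : ℕ → ℕ → ℕ → Finset (ℤ√2), ∀ a b, a < b → b < n → τ b = τ a * d a b ∧
        ∀ j, 1 ≤ j → j < E → 0 < m (fun s => mdens s.2 (fc c (col a b j) s.1)) ∧
          #(Zf a b j) = K ∧ ∀ z ∈ Zf a b j, 0 < z.re ∧ 0 ≤ z.im ∧ 2 * z.im ≤ z.re ∧
            Near δ (((d a b).2 : ℕ) * (2 * Qj Q0 j) * T0 ^ j) z ∧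
            (4 * ((Qj Q0 j : ℕ) : ℤ)) ∣ z.re ∧ (4 * ((Qj Q0 j : ℕ) : ℤ)) ∣ z.im - 1 ∧
            c ((((d a b).1 : ℕ) : ℤ√2) * z) = col a b j := by
  classical
  set Q2 : ℕ := 2 * (2 * Q0) ^ E with hQ2
  have hQ2pos : 0 < Q2 := by positivity
  have hU := full_z hm c K hδ hQ2pos
  let g : ℕ → S := fun j => (1, ⟨Qj Q0 j * T0 ^ j, Nat.mul_pos (Qj_pos hQ0) (pow_pos hT0 _)⟩)
  obtain ⟨τ, d, hτ⟩ := exists_seq hm hU ((range E).image g) n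
  have hex : ∀ a b j, ∃ i : Fin r, ∃ Z : Finset (ℤ√2), a < b → b < n → 1 ≤ j → j < E →
      0 < m (fun s => mdens s.2 (fc c i s.1)) ∧
          #Z = K ∧ ∀ z ∈ Z, 0 < z.re ∧ 0 ≤ z.im ∧ 2 * z.im ≤ z.re ∧
            Near δ (((d a b).2 : ℕ) * (2 * Qj Q0 j) * T0 ^ j) z ∧
            (4 * ((Qj Q0 j : ℕ) : ℤ)) ∣ z.re ∧ (4 * ((Qj Q0 j : ℕ) : ℤ)) ∣ z.im - 1 ∧
            c ((((d a b).1 : ℕ) : ℤ√2) * z) = i := by
    intro a b j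
    by_cases h : a < b ∧ b < n ∧ 1 ≤ j ∧ j < E
    · obtain ⟨h1, h2, h3, h4⟩ := h
      obtain ⟨i, hi, Z, hZK, hZ⟩ := (hτ a b h1 h2).2 (g j)
        (mem_image_of_mem g (mem_range.mpr h4))
      refine ⟨i, Z, fun _ _ _ _ => ⟨hi, hZK, fun z hz => ?_⟩⟩
      obtain ⟨b1, b2, b3, b4, b5⟩ := hZ z hz
      have hlam : 0 < (((d a b * g j).2 : ℕ+) : ℕ) := PNat.pos _
      rw [mem_box] at b1
      have hQd : (4 * Qj Q0 j) ∣ Q2 := by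
        have : 4 * Qj Q0 j = 2 * (2 * Q0) ^ j := by rw [← two_Qj h3]; ring
        rw [this, hQ2]
        exact mul_dvd_mul_left _ (pow_dvd_pow _ h4.le)
      have hQd' : (4 * ((Qj Q0 j : ℕ) : ℤ)) ∣ (Q2 : ℤ) := by exact_mod_cast hQd
      refine ⟨by omega, b1.2.1, by omega, ?_, hQd'.trans b3, hQd'.trans b4, ?_⟩
      · have : 2 * (((d a b * g j).2 : ℕ+) : ℕ) =
            ((d a b).2 : ℕ) * (2 * Qj Q0 j) * T0 ^ j := by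
          have e : (((d a b * g j).2 : ℕ+) : ℕ) =
              ((d a b).2 : ℕ) * (Qj Q0 j * T0 ^ j) := rfl
          rw [e]; ring
        rw [this] at b2
        exact b2
      · have : (((d a b * g j).1 : ℕ+) : ℕ) = ((d a b).1 : ℕ) := by
          simp only [g, Prod.fst_mul, mul_one]
        rw [this] at b5
        exact b5
    · exact ⟨c 0, ∅, fun h1 h2 h3 h4 => absurd ⟨h1, h2, h3, h4⟩ h⟩
  choose col Zf hcol using hex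
  exact ⟨τ, d, col, Zf, fun a b h1 h2 => ⟨(hτ a b h1 h2).1, fun j h3 h4 =>
    hcol a b j h1 h2 h3 h4⟩⟩

/-- for every colouring there is a monochromatic totally positive solution -/
theorem exists_solution {r : ℕ} (c : ℤ√2 → Fin r) : ∃ w x y z : ℤ√2, TP w ∧ TP x ∧ TP y ∧
    TP z ∧ c w = c z ∧ c x = c z ∧ c y = c z ∧
      2 * x + 2 * Zsqrtd.sqrtd * y = w * z ^ 3 := by
  classical
  obtain ⟨m, hm⟩ := exists_mean
  obtain ⟨ν, hν, hν1, hνi⟩ := exists_min_pos (fun i => m (fun s => mdens s.2 (fc c i s.1)))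
  obtain ⟨K, ε, hε, δ', hδ', hkey⟩ := key (c := ν / 2) (by positivity) (by linarith)
  obtain ⟨Q0, s0, hQ0, hs0, hlev⟩ := exists_level hm c (ε := ε * (ν / 4)) (by positivity)
  obtain ⟨δ, hδ, T0, hT0, hkey2⟩ := hkey Q0 s0 hQ0 hs0
  set κ : Type := {ℓ // ℓ ∈ labs Q0 s0} → Fin (⌈1 / δ'⌉₊ + 1) with hκ
  obtain ⟨n, k, hn, hk, hgrid⟩ := grid_pigeon (κ := κ) (ν := ν / 8) (by positivity)
  obtain ⟨E, hE⟩ := ramsey (Fin r) k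
  obtain ⟨n', hn'⟩ := ramsey (Fin E → Fin r) n
  obtain ⟨τ, d, col, Zf, hzc⟩ := z_config hm c K E hQ0 hT0 hδ n'
  obtain ⟨XA, hXA, hXAc, ι, hι⟩ := hn' (fun a b (j : Fin E) => col a b j)
  obtain ⟨XE, hXE, hXEc, i0, hi0⟩ := hE (fun e e' => if h : e' - e < E then ι ⟨e' - e, h⟩ else c 0)
  -- the colour of all the `z`
  have hcol : ∀ a ∈ XA, ∀ b ∈ XA, a < b → ∀ e ∈ XE, ∀ e' ∈ XE, e < e' →
      col a b (e' - e) = i0 := by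
    intro a ha b hb hab e he e' he' hee
    have h1 : e' < E := mem_range.mp (hXE he')
    have h2 : e' - e < E := by omega
    have h3 := hi0 e he e' he' hee
    rw [dif_pos h2] at h3
    have h4 := congrFun (hι a ha b hb hab) ⟨e' - e, h2⟩
    rw [← h3, ← h4]
  have hIne : (XA ×ˢ XE).Nonempty := by
    rw [← card_pos, card_product, hXAc, hXEc]; positivity
  -- the colour `i0` is dense
  have hdense : ν ≤ m (fun s => mdens s.2 (fc c i0 s.1)) := by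
    obtain ⟨a, ha, b, hb, hab, e, he, e', he', hee, -⟩ := hgrid XA XE hXAc hXEc
      (fun _ _ => True) (fun _ _ => (fun _ => 0 : κ)) (by
        simp only [filter_true]
        have : (0 : ℝ) ≤ #(XA ×ˢ XE) := Nat.cast_nonneg _
        nlinarith)
    have h1 := (hzc a b hab (mem_range.mp (hXA hb))).2 (e' - e) (by omega)
      (by have := mem_range.mp (hXE he'); omega)
    rw [hcol a ha b hb hab e he e' he' hee] at h1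
    exact hνi i0 h1.1
  -- the parameters of the key lemma
  have hex : ∀ q : ℕ × ℕ × ℕ, ∃ M s D : ℕ, 0 < M ∧ 0 < s ∧ 0 < D ∧
      (q.1 < q.2.1 → q.2.1 < n' → 1 ≤ q.2.2 → q.2.2 < E →
        ∀ M' s' : ℕ, 0 < M' → 0 < s' → M ∣ M' → s ∣ s' → ∀ L : ℕ, 0 < L → D * M' * s' ∣ L →
        ∀ fW fY fX : ℤ√2 → ℝ, (∀ x, 0 ≤ fW x ∧ fW x ≤ 1) → (∀ x, 0 ≤ fY x ∧ fY x ≤ 1) →
        (∀ x, 0 ≤ fX x ∧ fX x ≤ 1) → ν / 2 ≤ mdens L fW →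
        inc Q0 s0 M' s' (((d q.1 q.2.1).2 : ℕ) ^ 3 * L) fY ≤ ε →
        inc Q0 s0 M' s' (((d q.1 q.2.1).2 : ℕ) ^ 3 * (2 * Qj Q0 q.2.2) ^ 2 *
          (T0 ^ q.2.2) ^ 3 * L) fX ≤ ε →
        (∀ ℓ ∈ labs Q0 s0, |cden Q0 s0 L fW ℓ -
          cden Q0 s0 (((d q.1 q.2.1).2 : ℕ) ^ 3 * L) fY ℓ| ≤ δ') →
        (∀ ℓ ∈ labs Q0 s0, |cden Q0 s0 L fW ℓ -
          cden Q0 s0 (((d q.1 q.2.1).2 : ℕ) ^ 3 * (2 * Qj Q0 q.2.2) ^ 2 *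
          (T0 ^ q.2.2) ^ 3 * L) fX ℓ| ≤ δ') →
        ∃ z ∈ Zf q.1 q.2.1 q.2.2, ∃ w ∈ box L, ∃ y ∈ box (((d q.1 q.2.1).2 : ℕ) ^ 3 * L),
          ∃ x ∈ box (((d q.1 q.2.1).2 : ℕ) ^ 3 * (2 * Qj Q0 q.2.2) ^ 2 *
          (T0 ^ q.2.2) ^ 3 * L),
            2 * (2 * ((Qj Q0 q.2.2 : ℕ) : ℤ√2)) * x + 2 * Zsqrtd.sqrtd * y = w * z ^ 3 ∧
              fW w ≠ 0 ∧ fY y ≠ 0 ∧ fX x ≠ 0) := by
    intro q
    by_cases hq : q.1 < q.2.1 ∧ q.2.1 < n' ∧ 1 ≤ q.2.2 ∧ q.2.2 < E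
    · obtain ⟨q1, q2, q3, q4⟩ := hq
      obtain ⟨-, hZK, hZ⟩ := (hzc q.1 q.2.1 q1 q2).2 q.2.2 q3 q4
      obtain ⟨M, s, D, hM, hs, hD, -, -, hall⟩ := hkey2 (Qj Q0 q.2.2) (T0 ^ q.2.2)
        ((d q.1 q.2.1).2 : ℕ) (Qj_pos hQ0) (Dvd.intro _ rfl)
        (by
          calc T0 = T0 ^ 1 := (pow_one _).symm
            _ ≤ T0 ^ q.2.2 := Nat.pow_le_pow_right hT0 q3) (PNat.pos _)
        (Zf q.1 q.2.1 q.2.2) hZK
        (fun z hz => ⟨(hZ z hz).1, (hZ z hz).2.1, (hZ z hz).2.2.2.1, (hZ z hz).2.2.2.2.1,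
          (hZ z hz).2.2.2.2.2.1⟩)
      exact ⟨M, s, D, hM, hs, hD, fun _ _ _ _ => hall⟩
    · exact ⟨1, 1, 1, one_pos, one_pos, one_pos, fun a1 a2 a3 a4 => absurd ⟨a1, a2, a3, a4⟩ hq⟩
  choose Mf sf Df hMf hsf hDf hall using hex
  set I3 : Finset (ℕ × ℕ × ℕ) := range n' ×ˢ range n' ×ˢ range E with hI3
  set M' : ℕ := Q0 * ∏ q ∈ I3, Mf q with hM'
  set s' : ℕ := s0 * ∏ q ∈ I3, sf q with hs'
  set D' : ℕ := ∏ q ∈ I3, Df q with hD'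
  have hM'pos : 0 < M' := Nat.mul_pos hQ0 (prod_pos fun q _ => hMf q)
  have hs'pos : 0 < s' := Nat.mul_pos hs0 (prod_pos fun q _ => hsf q)
  have hD'pos : 0 < D' := prod_pos fun q _ => hDf q
  -- good types
  have hgood := mean_good hm (F := fun s => mdens s.2 (fc c i0 s.1))
    (e := fun s => inc Q0 s0 M' s' s.2 (fc c i0 s.1))
    (fun s => mdens_bounds (fc_bounds c i0 s.1))
    (fun s => ⟨inc_nonneg _ _ _ _ _ _, inc_le_one (Dvd.intro _ rfl) (Dvd.intro _ rfl) hs'pos _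
      (fun x => by
        have := fc_bounds c i0 s.1 x
        rw [abs_le]; constructor <;> linarith)⟩) hν hε hdense
    (hlev M' s' hM'pos hs'pos (Dvd.intro _ rfl) (Dvd.intro _ rfl) i0)
    (full_dvd hm (D := D' * M' * s') (by positivity))
  set A : Set S := {s | ν / 2 ≤ mdens s.2 (fc c i0 s.1) ∧
    inc Q0 s0 M' s' s.2 (fc c i0 s.1) ≤ ε ∧ s ∈ {s : S | D' * M' * s' ∣ (s.2 : ℕ)}} with hA
  set θ : S := (⟨2 * Q0, by positivity⟩, ⟨(2 * Q0) ^ 2 * T0 ^ 3, by positivity⟩) with hθ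
  obtain ⟨β, hβ⟩ := exists_many hm (ν := ν / 4) (by positivity) hgood (XA ×ˢ XE) hIne
    (fun q => τ q.1 ^ 3 * θ ^ q.2)
  obtain ⟨a, ha, b, hb, hab, e, he, e', he', hee, g1, g2, g3, p1, p2⟩ :=
    hgrid XA XE hXAc hXEc (fun a e => β * (τ a ^ 3 * θ ^ e) ∈ A)
      (fun a e => prof Q0 s0 ⌈1 / δ'⌉₊ δ' c i0 (β * (τ a ^ 3 * θ ^ e))) (by
        calc ν / 8 * #(XA ×ˢ XE) = ν / 4 / 2 * #(XA ×ˢ XE) := by ring
          _ ≤ _ := hβ)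
  have hbn : b < n' := mem_range.mp (hXA hb)
  have heE : e' < E := mem_range.mp (hXE he')
  have hj1 : 1 ≤ e' - e := by omega
  have hjE : e' - e < E := by omega
  obtain ⟨hτ, hz0⟩ := hzc a b hab hbn
  obtain ⟨-, -, hz⟩ := hz0 (e' - e) hj1 hjE
  rw [hcol a ha b hb hab e he e' he' hee] at hz
  set j := e' - e with hj
  have he'e : e' = e + j := by omega
  set W : S := β * (τ a ^ 3 * θ ^ e) with hW
  set Y : S := β * (τ b ^ 3 * θ ^ e) with hY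
  set X : S := β * (τ b ^ 3 * θ ^ e') with hX
  -- relations between the types
  have hYW : Y = d a b ^ 3 * W := by
    rw [hY, hW, hτ, mul_pow]; simp only [mul_left_comm, mul_assoc]
  have hXW : X = d a b ^ 3 * θ ^ j * W := by
    rw [hX, hW, hτ, mul_pow, he'e, pow_add]; simp only [mul_comm, mul_left_comm, mul_assoc]
  have hY1 : (Y.1 : ℕ) = ((d a b).1 : ℕ) ^ 3 * (W.1 : ℕ) := by rw [hYW]; simp
  have hY2 : (Y.2 : ℕ) = ((d a b).2 : ℕ) ^ 3 * (W.2 : ℕ) := by rw [hYW]; simp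
  have hθ1 : (((θ ^ j).1 : ℕ+) : ℕ) = (2 * Q0) ^ j := by
    rw [Prod.pow_fst]; exact PNat.pow_coe _ _
  have hθ2 : (((θ ^ j).2 : ℕ+) : ℕ) = ((2 * Q0) ^ 2 * T0 ^ 3) ^ j := by
    rw [Prod.pow_snd]; exact PNat.pow_coe _ _
  have hX1 : (X.1 : ℕ) = ((d a b).1 : ℕ) ^ 3 * (2 * Qj Q0 j) * (W.1 : ℕ) := by
    rw [hXW, two_Qj hj1, Prod.fst_mul, Prod.fst_mul, PNat.mul_coe, PNat.mul_coe, hθ1,
      Prod.pow_fst, PNat.pow_coe]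
  have hX2 : (X.2 : ℕ) = ((d a b).2 : ℕ) ^ 3 * (2 * Qj Q0 j) ^ 2 * (T0 ^ j) ^ 3 * (W.2 : ℕ) := by
    rw [hXW, two_Qj hj1, Prod.snd_mul, Prod.snd_mul, PNat.mul_coe, PNat.mul_coe, hθ2,
      Prod.pow_snd, PNat.pow_coe]
    generalize 2 * Q0 = u
    ring
  have hmem : (a, b, j) ∈ I3 := by
    simp only [hI3, mem_product, mem_range]
    omega
  obtain ⟨z, hzZ, w, hw, y, hy, x, hx, heq, n1, n2, n3⟩ :=
    hall (a, b, j) hab hbn hj1 hjE M' s' hM'pos hs'pos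
      (Dvd.dvd.mul_left (dvd_prod_of_mem Mf hmem) _)
      (Dvd.dvd.mul_left (dvd_prod_of_mem sf hmem) _) (W.2 : ℕ) (PNat.pos _)
      ((mul_dvd_mul_right (mul_dvd_mul_right (dvd_prod_of_mem Df hmem) _) _).trans g1.2.2)
      (fc c i0 W.1) (fc c i0 Y.1) (fc c i0 X.1) (fc_bounds _ _ _) (fc_bounds _ _ _)
      (fc_bounds _ _ _) g1.1 (by rw [← hY2]; exact g2.2.1) (by rw [← hX2]; exact g3.2.1)
      (fun ℓ hℓ => by rw [← hY2]; exact prof_close hδ' p1 hℓ)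
      (fun ℓ hℓ => by rw [← hX2]; exact prof_close hδ' (p1.trans p2) hℓ)
  have hzcol := (hz z hzZ).2.2.2.2.2.2
  refine ⟨((W.1 : ℕ) : ℤ√2) * w, ((X.1 : ℕ) : ℤ√2) * x, ((Y.1 : ℕ) : ℤ√2) * y,
    (((d a b).1 : ℕ) : ℤ√2) * z, TP_mul_box (PNat.pos _) hw, TP_mul_box (PNat.pos _) hx,
    TP_mul_box (PNat.pos _) hy, TP_mul (PNat.pos _) (hz z hzZ).1 (hz z hzZ).2.1
      (hz z hzZ).2.2.1, ?_, ?_, ?_, ?_⟩
  · rw [fc_ne_zero n1, hzcol]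
  · rw [fc_ne_zero n3, hzcol]
  · rw [fc_ne_zero n2, hzcol]
  · rw [hX1, hY1]
    push_cast
    have : (((W.1 : ℕ) : ℤ√2) * (((d a b).1 : ℕ) : ℤ√2) ^ 3) *
      (2 * (2 * ((Qj Q0 j : ℕ) : ℤ√2)) * x + 2 * Zsqrtd.sqrtd * y) =
      (((W.1 : ℕ) : ℤ√2) * (((d a b).1 : ℕ) : ℤ√2) ^ 3) * (w * z ^ 3) := by
      rw [heq]
    linear_combination this

end Pool.Agent.helper1.PR
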