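import Pool.Agent.H48.PR.J6
import Pool.Agent.helper3.PR.E
import Pool.Agent.helper40.PR.F
import Pool.Agent.helper6.PR.J7
import Pool.Agent.helper76.PR.J01
import Pool.Agent.helper8.PR.J9
import Pool.Agent.helper96.PR.J8

/-!
PR project: lower bound for the main term.
-/

namespace Pool.Agent.helper1.PR

open Finset

/-- sum over `Om` as a double sum -/
theorem sum_Om_eq (Q' Lw Ly : ℕ) (F : ℤ√2 → ℤ√2 → ℝ) :
    ∑ p ∈ Om Q' Lw Ly, F p.1 p.2 = ∑ w ∈ box Lw,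
      ∑ y ∈ box Ly with (2 * (Q' : ℤ)) ∣ w.re - y.re ∧ (Q' : ℤ) ∣ w.im - y.im, F w y := by
  unfold Om
  rw [sum_filter, sum_product]
  refine sum_congr rfl fun w _ => ?_
  rw [sum_filter]

/-- the residue classes -/
noncomputable def resI (Q0 : ℕ) : Finset (ℤ × ℤ) := Ico (0 : ℤ) Q0 ×ˢ Ico (0 : ℤ) Q0

/-- the small squares -/
noncomputable def posJ (s0 : ℕ) : Finset (ℤ × ℤ) := Ico (2 * (s0 : ℤ)) (4 * s0) ×ˢ Ico (0 : ℤ) s0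

theorem card_resI (Q0 : ℕ) : (#(resI Q0) : ℝ) = (Q0 : ℝ) ^ 2 := by
  simp only [resI, card_product, Int.card_Ico]
  have h2 : ((Q0 : ℤ) - 0).toNat = Q0 := by omega
  rw [h2]; push_cast; ring

theorem card_posJ (s0 : ℕ) : (#(posJ s0) : ℝ) = 2 * (s0 : ℝ) ^ 2 := by
  simp only [posJ, card_product, Int.card_Ico]
  have h1 : (4 * (s0 : ℤ) - 2 * s0).toNat = 2 * s0 := by omega
  have h2 : ((s0 : ℤ) - 0).toNat = s0 := by omega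
  rw [h1, h2]; push_cast; ring

theorem sum_labs (Q0 s0 : ℕ) (F : ℤ × ℤ × ℤ × ℤ → ℝ) :
    ∑ ℓ ∈ labs Q0 s0, F ℓ = ∑ o ∈ resI Q0, ∑ v ∈ posJ s0, F (o.1, o.2, v.1, v.2) := by
  unfold labs resI posJ
  rw [sum_product, sum_product]
  refine sum_congr rfl fun a _ => ?_
  rw [sum_product]

theorem card_labs (Q0 s0 : ℕ) :
    (#(labs Q0 s0) : ℝ) = 2 * (Q0 : ℝ) ^ 2 * (s0 : ℝ) ^ 2 := by
  have h := sum_labs Q0 s0 (fun _ => 1)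
  simp only [sum_const, nsmul_eq_mul, mul_one] at h
  rw [h, card_resI, card_posJ]; ring

theorem avg_sub_le {ι : Type*} (J : Finset ι) {n : ℝ} (hn : (#J : ℝ) = n) (hn0 : 0 < n)
    (f g : ι → ℝ) {δ : ℝ} (h : ∀ j ∈ J, |f j - g j| ≤ δ) :
    |(∑ j ∈ J, f j) / n - (∑ j ∈ J, g j) / n| ≤ δ := by
  rw [← sub_div, ← sum_sub_distrib, abs_div, abs_of_pos hn0, div_le_iff₀ hn0]
  calc |∑ j ∈ J, (f j - g j)| ≤ ∑ j ∈ J, |f j - g j| := abs_sum_le_sum_abs _ _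
    _ ≤ ∑ j ∈ J, δ := sum_le_sum h
    _ = δ * n := by rw [sum_const, nsmul_eq_mul, hn]; ring

theorem avg_bounds {ι : Type*} (J : Finset ι) {n : ℝ} (hn : (#J : ℝ) = n) (hn0 : 0 < n)
    (f : ι → ℝ) (h : ∀ j ∈ J, 0 ≤ f j ∧ f j ≤ 1) :
    0 ≤ (∑ j ∈ J, f j) / n ∧ (∑ j ∈ J, f j) / n ≤ 1 := by
  constructor
  · exact div_nonneg (sum_nonneg fun j hj => (h j hj).1) hn0.le
  · rw [div_le_one hn0, ← hn]
    calc ∑ j ∈ J, f j ≤ ∑ j ∈ J, (1 : ℝ) := sum_le_sum fun j hj => (h j hj).2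
      _ = #J := by simp

/-- the density profile version of the three edges inequality -/
theorem profile_sum {Q0 s0 : ℕ} (h0 : 0 < Q0) (hs : 0 < s0)
    (HW HY HX : ℤ × ℤ × ℤ × ℤ → ℝ) (hW : ∀ ℓ, 0 ≤ HW ℓ ∧ HW ℓ ≤ 1)
    (hY : ∀ ℓ, 0 ≤ HY ℓ ∧ HY ℓ ≤ 1) (hX : ∀ ℓ, 0 ≤ HX ℓ ∧ HX ℓ ≤ 1) {c δ' : ℝ} (hc : 0 ≤ c)
    (hmass : c * (2 * (Q0 : ℝ) ^ 2 * (s0 : ℝ) ^ 2) ≤ ∑ ℓ ∈ labs Q0 s0, HW ℓ)
    (h1 : ∀ ℓ ∈ labs Q0 s0, |HW ℓ - HY ℓ| ≤ δ') (h2 : ∀ ℓ ∈ labs Q0 s0, |HW ℓ - HX ℓ| ≤ δ') :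
    (c ^ 3 / 32 - 2 * δ') * (2 * (Q0 : ℝ) ^ 2 * (s0 : ℝ) ^ 2) ≤
      ∑ ℓ ∈ labs Q0 s0, HW ℓ *
        (((∑ v ∈ posJ s0, HY (ℓ.1, ℓ.2.1, v.1, v.2)) / (2 * (s0 : ℝ) ^ 2)) *
        ((∑ o ∈ resI Q0, HX (o.1, o.2, ℓ.2.2.1, ℓ.2.2.2)) / (Q0 : ℝ) ^ 2)) := by
  have hQ : (0 : ℝ) < (Q0 : ℝ) ^ 2 := by positivity
  have hS : (0 : ℝ) < 2 * (s0 : ℝ) ^ 2 := by positivity
  have hI := card_resI Q0
  have hJ := card_posJ s0
  have key := hra (resI Q0) (posJ s0) (fun o v => HW (o.1, o.2, v.1, v.2))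
    (fun i _ j _ => hW _) hc (by
      rw [sum_labs] at hmass
      rw [hI, hJ]
      calc c * ((Q0 : ℝ) ^ 2 * (2 * (s0 : ℝ) ^ 2)) = c * (2 * (Q0 : ℝ) ^ 2 * (s0 : ℝ) ^ 2) := by
            ring
        _ ≤ _ := hmass)
  have hmemlab : ∀ o ∈ resI Q0, ∀ v ∈ posJ s0, (o.1, o.2, v.1, v.2) ∈ labs Q0 s0 := by
    intro o ho v hv
    simp only [resI, posJ, labs, mem_product] at *
    exact ⟨ho.1, ho.2, hv.1, hv.2⟩
  have hcomp : ∑ i ∈ resI Q0, ∑ j ∈ posJ s0,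
      HW (i.1, i.2, j.1, j.2) * ((∑ j' ∈ posJ s0, HW (i.1, i.2, j'.1, j'.2)) / #(posJ s0)) *
        ((∑ i' ∈ resI Q0, HW (i'.1, i'.2, j.1, j.2)) / #(resI Q0)) ≤
      ∑ i ∈ resI Q0, ∑ j ∈ posJ s0, (HW (i.1, i.2, j.1, j.2) *
        (((∑ v ∈ posJ s0, HY (i.1, i.2, v.1, v.2)) / (2 * (s0 : ℝ) ^ 2)) *
        ((∑ o ∈ resI Q0, HX (o.1, o.2, j.1, j.2)) / (Q0 : ℝ) ^ 2)) + 2 * δ') := by
    refine sum_le_sum fun i hi => sum_le_sum fun j hj => ?_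
    rw [hI, hJ]
    have e1 := avg_sub_le (posJ s0) hJ hS (fun v => HW (i.1, i.2, v.1, v.2))
      (fun v => HY (i.1, i.2, v.1, v.2)) (fun v hv => h1 _ (hmemlab i hi v hv))
    have e2 := avg_sub_le (resI Q0) hI hQ (fun o => HW (o.1, o.2, j.1, j.2))
      (fun o => HX (o.1, o.2, j.1, j.2)) (fun o ho => h2 _ (hmemlab o ho j hj))
    have b1 := avg_bounds (posJ s0) hJ hS (fun v => HW (i.1, i.2, v.1, v.2)) (fun v _ => hW _)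
    have b2 := avg_bounds (resI Q0) hI hQ (fun o => HX (o.1, o.2, j.1, j.2)) (fun v _ => hX _)
    have b3 := avg_bounds (posJ s0) hJ hS (fun v => HY (i.1, i.2, v.1, v.2)) (fun v _ => hY _)
    have b4 := avg_bounds (resI Q0) hI hQ (fun o => HW (o.1, o.2, j.1, j.2)) (fun v _ => hW _)
    have b5 := hW (i.1, i.2, j.1, j.2)
    set a := HW (i.1, i.2, j.1, j.2)
    set RW := (∑ v ∈ posJ s0, HW (i.1, i.2, v.1, v.2)) / (2 * (s0 : ℝ) ^ 2)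
    set RY := (∑ v ∈ posJ s0, HY (i.1, i.2, v.1, v.2)) / (2 * (s0 : ℝ) ^ 2)
    set AW := (∑ o ∈ resI Q0, HW (o.1, o.2, j.1, j.2)) / (Q0 : ℝ) ^ 2
    set AX := (∑ o ∈ resI Q0, HX (o.1, o.2, j.1, j.2)) / (Q0 : ℝ) ^ 2
    have f1 : RW * AW - RY * AX ≤ 2 * δ' := by
      have : RW * AW - RY * AX = (RW - RY) * AX + RW * (AW - AX) := by ring
      rw [this]
      have g1 : (RW - RY) * AX ≤ δ' := by
        calc (RW - RY) * AX ≤ |RW - RY| * AX := mul_le_mul_of_nonneg_right (le_abs_self _) b2.1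
          _ ≤ |RW - RY| * 1 := mul_le_mul_of_nonneg_left b2.2 (abs_nonneg _)
          _ ≤ δ' := by simpa using e1
      have g2 : RW * (AW - AX) ≤ δ' := by
        calc RW * (AW - AX) ≤ RW * |AW - AX| := mul_le_mul_of_nonneg_left (le_abs_self _) b1.1
          _ ≤ 1 * |AW - AX| := mul_le_mul_of_nonneg_right b1.2 (abs_nonneg _)
          _ ≤ δ' := by simpa using e2
      linarith
    have hδ0 : 0 ≤ δ' := (abs_nonneg _).trans e1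
    have f2 : a * (RW * AW - RY * AX) ≤ 2 * δ' := by
      by_cases hn : 0 ≤ RW * AW - RY * AX
      · calc a * (RW * AW - RY * AX) ≤ 1 * (RW * AW - RY * AX) :=
              mul_le_mul_of_nonneg_right b5.2 hn
          _ ≤ 2 * δ' := by linarith
      · have : a * (RW * AW - RY * AX) ≤ 0 :=
          mul_nonpos_of_nonneg_of_nonpos b5.1 (not_le.mp hn).le
        linarith
    nlinarith [f2]
  rw [sum_labs]
  have hconst : ∑ i ∈ resI Q0, ∑ j ∈ posJ s0, (2 * δ') =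
      2 * δ' * (2 * (Q0 : ℝ) ^ 2 * (s0 : ℝ) ^ 2) := by
    simp only [sum_const, nsmul_eq_mul]
    rw [hI, hJ]; ring
  have hsplit : ∑ i ∈ resI Q0, ∑ j ∈ posJ s0, (HW (i.1, i.2, j.1, j.2) *
        (((∑ v ∈ posJ s0, HY (i.1, i.2, v.1, v.2)) / (2 * (s0 : ℝ) ^ 2)) *
        ((∑ o ∈ resI Q0, HX (o.1, o.2, j.1, j.2)) / (Q0 : ℝ) ^ 2)) + 2 * δ') =
      ∑ i ∈ resI Q0, ∑ j ∈ posJ s0, HW (i.1, i.2, j.1, j.2) *
        (((∑ v ∈ posJ s0, HY (i.1, i.2, v.1, v.2)) / (2 * (s0 : ℝ) ^ 2)) *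
        ((∑ o ∈ resI Q0, HX (o.1, o.2, j.1, j.2)) / (Q0 : ℝ) ^ 2)) +
      ∑ i ∈ resI Q0, ∑ j ∈ posJ s0, (2 * δ') := by
    rw [← sum_add_distrib]
    refine sum_congr rfl fun i _ => ?_
    rw [← sum_add_distrib]
  rw [hsplit, hconst] at hcomp
  have hk : c ^ 3 / 32 * (#(resI Q0) * #(posJ s0)) =
      c ^ 3 / 32 * (2 * (Q0 : ℝ) ^ 2 * (s0 : ℝ) ^ 2) := by
    rw [hI, hJ]; ring
  rw [hk] at key
  have := key.trans hcomp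
  have e : (c ^ 3 / 32 - 2 * δ') * (2 * (Q0 : ℝ) ^ 2 * (s0 : ℝ) ^ 2) =
      c ^ 3 / 32 * (2 * (Q0 : ℝ) ^ 2 * (s0 : ℝ) ^ 2) -
        2 * δ' * (2 * (Q0 : ℝ) ^ 2 * (s0 : ℝ) ^ 2) := by ring
  rw [e]
  linarith

end Pool.Agent.helper1.PR
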