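import Pool.Agent.helper1.PR.Key1

/-!
PR project: lower bound for the main term, continued.
-/

namespace Pool.Agent.helper1.PR

open Finset

/-- the test function of the main term -/
noncomputable def Phi (Q0 s0 G L Lx Q' : ℕ) (N : ℤ√2) (fW fX : ℤ√2 → ℝ) (w y : ℤ√2) : ℝ :=
  if GoodW s0 G L w then fW w * cden Q0 s0 Lx fX ((xx Q' N (w, y)).re % Q0,
    (xx Q' N (w, y)).im % Q0, w.re * s0 / L, w.im * s0 / L) else 0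

theorem Phi_nonneg {Q0 s0 G L Lx Q' : ℕ} {N : ℤ√2} {fW fX : ℤ√2 → ℝ}
    (hW : ∀ x, 0 ≤ fW x ∧ fW x ≤ 1) (hX : ∀ x, 0 ≤ fX x ∧ fX x ≤ 1) (w y : ℤ√2) :
    0 ≤ Phi Q0 s0 G L Lx Q' N fW fX w y := by
  unfold Phi
  split_ifs
  · exact mul_nonneg (hW w).1 (cden_nonneg _ _ _ (fun x => (hX x).1) _)
  · exact le_rfl

theorem Phi_le_one {Q0 s0 G L Lx Q' : ℕ} {N : ℤ√2} {fW fX : ℤ√2 → ℝ}
    (hW : ∀ x, 0 ≤ fW x ∧ fW x ≤ 1) (hX : ∀ x, 0 ≤ fX x ∧ fX x ≤ 1) (w y : ℤ√2) :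
    Phi Q0 s0 G L Lx Q' N fW fX w y ≤ 1 := by
  unfold Phi
  split_ifs
  · exact mul_le_one₀ (hW w).2 (cden_nonneg _ _ _ (fun x => (hX x).1) _)
      (cden_le_one _ _ _ (fun x => (hX x).2) _)
  · exact zero_le_one

/-- `(w - y)/(Q'√2)` modulo `Q0` depends only on `y` modulo `2Q'Q0` -/
theorem tt_mod {Q0 Q' : ℕ} (hQ : 0 < Q') {w y y' : ℤ√2}
    (h1 : y.re % ((2 * Q' * Q0 : ℕ) : ℤ) = y'.re % ((2 * Q' * Q0 : ℕ) : ℤ))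
    (h2 : y.im % ((2 * Q' * Q0 : ℕ) : ℤ) = y'.im % ((2 * Q' * Q0 : ℕ) : ℤ))
    (h3 : (2 * (Q' : ℤ)) ∣ w.re - y.re) (h4 : (Q' : ℤ) ∣ w.im - y.im) :
    (∃ k, (tt Q' (w, y')).re = (tt Q' (w, y)).re + Q0 * k) ∧
      (∃ k, (tt Q' (w, y')).im = (tt Q' (w, y)).im + Q0 * k) := by
  have hQ' : (Q' : ℤ) ≠ 0 := by exact_mod_cast hQ.ne'
  have e1 : ((2 * Q' * Q0 : ℕ) : ℤ) ∣ y.re - y'.re := Int.ModEq.dvd (Int.ModEq.symm h1)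
  have e2 : ((2 * Q' * Q0 : ℕ) : ℤ) ∣ y.im - y'.im := Int.ModEq.dvd (Int.ModEq.symm h2)
  obtain ⟨a, ha⟩ := e1
  obtain ⟨b, hb⟩ := e2
  obtain ⟨u, hu⟩ := h3
  obtain ⟨v, hv⟩ := h4
  push_cast at ha hb
  constructor
  · refine ⟨2 * b, ?_⟩
    simp only [tt]
    have : w.im - y'.im = Q' * (v + Q0 * (2 * b)) := by
      have : w.im - y'.im = (w.im - y.im) + (y.im - y'.im) := by ring
      rw [this, hv, hb]; ring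
    rw [this, hv, Int.mul_ediv_cancel_left _ hQ', Int.mul_ediv_cancel_left _ hQ']
  · refine ⟨a, ?_⟩
    simp only [tt]
    have : w.re - y'.re = (2 * Q') * (u + Q0 * a) := by
      have : w.re - y'.re = (w.re - y.re) + (y.re - y'.re) := by ring
      rw [this, hu, ha]; ring
    have h2Q : (2 * (Q' : ℤ)) ≠ 0 := by positivity
    rw [this, hu, Int.mul_ediv_cancel_left _ h2Q, Int.mul_ediv_cancel_left _ h2Q]

theorem Phi_congr {Q0 s0 G L Lx Q' : ℕ} (hQ : 0 < Q') {N : ℤ√2} {fW fX : ℤ√2 → ℝ} {w y y' : ℤ√2}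
    (h1 : y.re % ((2 * Q' * Q0 : ℕ) : ℤ) = y'.re % ((2 * Q' * Q0 : ℕ) : ℤ))
    (h2 : y.im % ((2 * Q' * Q0 : ℕ) : ℤ) = y'.im % ((2 * Q' * Q0 : ℕ) : ℤ))
    (h3 : (2 * (Q' : ℤ)) ∣ w.re - y.re) (h4 : (Q' : ℤ) ∣ w.im - y.im) :
    Phi Q0 s0 G L Lx Q' N fW fX w y = Phi Q0 s0 G L Lx Q' N fW fX w y' := by
  obtain ⟨⟨k, hk⟩, ⟨l, hl⟩⟩ := tt_mod hQ h1 h2 h3 h4
  unfold Phi
  have e1 : (xx Q' N (w, y')).re % (Q0 : ℤ) = (xx Q' N (w, y)).re % (Q0 : ℤ) := by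
    simp only [xx, Zsqrtd.re_add, hk]
    rw [← add_assoc, Int.add_mul_emod_self_left]
  have e2 : (xx Q' N (w, y')).im % (Q0 : ℤ) = (xx Q' N (w, y)).im % (Q0 : ℤ) := by
    simp only [xx, Zsqrtd.im_add, hl]
    rw [← add_assoc, Int.add_mul_emod_self_left]
  rw [e1, e2]

/-- the main term for the cell averages -/
theorem main_cells {Q0 s0 Q' L Ly Lx G : ℕ} (h0 : 0 < Q0) (hs : 0 < s0) (hQ : 0 < Q')
    (hL : 0 < L) (hLy : 0 < Ly) (hG : 0 < G) (hd : Q0 ∣ Q')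
    (d1 : Q0 * s0 ∣ L) (d2 : 2 * Q' ∣ Ly) (d3 : s0 * G ∣ L) (d4 : 2 * Q' * Q0 * s0 ∣ Ly)
    (N : ℤ√2) {fW fY fX : ℤ√2 → ℝ} (hW : ∀ x, 0 ≤ fW x ∧ fW x ≤ 1)
    (hY : ∀ x, 0 ≤ fY x ∧ fY x ≤ 1) (hX : ∀ x, 0 ≤ fX x ∧ fX x ≤ 1) {c δ' : ℝ} (hc : 0 ≤ c)
    (hmass : c ≤ mdens L fW)
    (h1 : ∀ ℓ ∈ labs Q0 s0, |cden Q0 s0 L fW ℓ - cden Q0 s0 Ly fY ℓ| ≤ δ')
    (h2 : ∀ ℓ ∈ labs Q0 s0, |cden Q0 s0 L fW ℓ - cden Q0 s0 Lx fX ℓ| ≤ δ') :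
    #(Om Q' L Ly) * (c ^ 3 / 32 - 2 * δ' - 4 / G) ≤
      ∑ p ∈ Om Q' L Ly, cav Q0 s0 Ly fY p.2 * Phi Q0 s0 G L Lx Q' N fW fX p.1 p.2 := by
  have hQ0R : (0 : ℝ) < Q0 := by exact_mod_cast h0
  have hs0R : (0 : ℝ) < s0 := by exact_mod_cast hs
  have hLR : (0 : ℝ) < L := by exact_mod_cast hL
  have hGR : (0 : ℝ) < G := by exact_mod_cast hG
  have hLyR : (0 : ℝ) < Ly := by exact_mod_cast hLy
  have hQR : (0 : ℝ) < Q' := by exact_mod_cast hQ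
  have hQ2 : (0 : ℝ) < (Q0 : ℝ) ^ 2 := by positivity
  have hS2 : (0 : ℝ) < 2 * (s0 : ℝ) ^ 2 := by positivity
  -- the function of the label of `w`
  set R : ℤ × ℤ × ℤ × ℤ → ℝ := fun ℓ =>
    ((∑ v ∈ posJ s0, cden Q0 s0 Ly fY (ℓ.1, ℓ.2.1, v.1, v.2)) / (2 * (s0 : ℝ) ^ 2)) *
      ((∑ o ∈ resI Q0, cden Q0 s0 Lx fX (o.1, o.2, ℓ.2.2.1, ℓ.2.2.2)) / (Q0 : ℝ) ^ 2) with hR
  have hcY : ∀ ℓ, 0 ≤ cden Q0 s0 Ly fY ℓ ∧ cden Q0 s0 Ly fY ℓ ≤ 1 := fun ℓ =>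
    ⟨cden_nonneg _ _ _ (fun x => (hY x).1) _, cden_le_one _ _ _ (fun x => (hY x).2) _⟩
  have hcX : ∀ ℓ, 0 ≤ cden Q0 s0 Lx fX ℓ ∧ cden Q0 s0 Lx fX ℓ ≤ 1 := fun ℓ =>
    ⟨cden_nonneg _ _ _ (fun x => (hX x).1) _, cden_le_one _ _ _ (fun x => (hX x).2) _⟩
  have hcW : ∀ ℓ, 0 ≤ cden Q0 s0 L fW ℓ ∧ cden Q0 s0 L fW ℓ ≤ 1 := fun ℓ =>
    ⟨cden_nonneg _ _ _ (fun x => (hW x).1) _, cden_le_one _ _ _ (fun x => (hW x).2) _⟩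
  have hR01 : ∀ ℓ, 0 ≤ R ℓ ∧ R ℓ ≤ 1 := by
    intro ℓ
    have b1 := avg_bounds (posJ s0) (card_posJ s0) hS2
      (fun v => cden Q0 s0 Ly fY (ℓ.1, ℓ.2.1, v.1, v.2)) (fun v _ => hcY _)
    have b2 := avg_bounds (resI Q0) (card_resI Q0) hQ2
      (fun o => cden Q0 s0 Lx fX (o.1, o.2, ℓ.2.2.1, ℓ.2.2.2)) (fun v _ => hcX _)
    exact ⟨mul_nonneg b1.1 b2.1, mul_le_one₀ b1.2 b2.1 b2.2⟩
  -- the sum over `y`
  have hy : ∀ w ∈ box L, ∑ y ∈ box Ly with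
      (2 * (Q' : ℤ)) ∣ w.re - y.re ∧ (Q' : ℤ) ∣ w.im - y.im,
      cav Q0 s0 Ly fY y * Phi Q0 s0 G L Lx Q' N fW fX w y =
      ((Ly : ℝ) / Q') ^ 2 * (if GoodW s0 G L w then fW w * R (lab Q0 s0 L w) else 0) := by
    intro w _
    by_cases hg : GoodW s0 G L w
    · rw [if_pos hg]
      have e := main_eq h0 hs hQ hLy hd d4 w N (cden Q0 s0 Ly fY)
        (fun o => cden Q0 s0 Lx fX (o.1, o.2, w.re * s0 / L, w.im * s0 / L))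
      have e2 : ∑ y ∈ box Ly with (2 * (Q' : ℤ)) ∣ w.re - y.re ∧ (Q' : ℤ) ∣ w.im - y.im,
          cav Q0 s0 Ly fY y * Phi Q0 s0 G L Lx Q' N fW fX w y =
          fW w * ∑ y ∈ box Ly with (2 * (Q' : ℤ)) ∣ w.re - y.re ∧ (Q' : ℤ) ∣ w.im - y.im,
            cden Q0 s0 Ly fY (lab Q0 s0 Ly y) * cden Q0 s0 Lx fX ((xx Q' N (w, y)).re % Q0,
              (xx Q' N (w, y)).im % Q0, w.re * s0 / L, w.im * s0 / L) := by
        rw [mul_sum]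
        refine sum_congr rfl fun y _ => ?_
        rw [Phi, if_pos hg, cav]
        ring
      rw [e2, e]
      simp only [hR, lab, posJ, resI]
      ring
    · rw [if_neg hg, mul_zero]
      refine sum_eq_zero fun y _ => ?_
      rw [Phi, if_neg hg, mul_zero]
  rw [sum_Om_eq Q' L Ly (fun w y => cav Q0 s0 Ly fY y * Phi Q0 s0 G L Lx Q' N fW fX w y),
    sum_congr rfl hy, ← mul_sum, card_Om hQ d2]
  -- compare with the sum over all `w`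
  have hbad : ∑ w ∈ box L, fW w * R (lab Q0 s0 L w) - (4 / G) * (2 * (L : ℝ) ^ 2) ≤
      ∑ w ∈ box L, (if GoodW s0 G L w then fW w * R (lab Q0 s0 L w) else 0) := by
    have hb := card_bad hs hG hL d3
    have hb' : (#{w ∈ box L | ¬ GoodW s0 G L w} : ℝ) ≤ (4 / G) * (2 * (L : ℝ) ^ 2) := by
      have : ((#{w ∈ box L | ¬ GoodW s0 G L w} * G : ℕ) : ℝ) ≤ ((4 * #(box L) : ℕ) : ℝ) := by
        exact_mod_cast hb
      rw [card_box] at this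
      push_cast at this
      rw [div_mul_eq_mul_div, le_div_iff₀ hGR]
      linarith
    have hsub : ∑ w ∈ box L, fW w * R (lab Q0 s0 L w) -
        ∑ w ∈ box L, (if GoodW s0 G L w then fW w * R (lab Q0 s0 L w) else 0) ≤
        #{w ∈ box L | ¬ GoodW s0 G L w} := by
      rw [← sum_sub_distrib]
      calc ∑ w ∈ box L, (fW w * R (lab Q0 s0 L w) -
            (if GoodW s0 G L w then fW w * R (lab Q0 s0 L w) else 0))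
          ≤ ∑ w ∈ box L, (if ¬ GoodW s0 G L w then (1 : ℝ) else 0) := by
            refine sum_le_sum fun w _ => ?_
            by_cases hg : GoodW s0 G L w
            · simp [hg]
            · simp only [hg, if_false, sub_zero, not_false_eq_true, if_true]
              exact mul_le_one₀ (hW w).2 (hR01 _).1 (hR01 _).2
        _ = _ := by rw [sum_boole]
    linarith
  have hall : (c ^ 3 / 32 - 2 * δ') * (2 * (L : ℝ) ^ 2) ≤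
      ∑ w ∈ box L, fW w * R (lab Q0 s0 L w) := by
    rw [sum_mul_lab h0 hs hL d1 fW R]
    have hm := profile_sum h0 hs (cden Q0 s0 L fW) (cden Q0 s0 Ly fY) (cden Q0 s0 Lx fX)
      hcW hcY hcX hc (by
        have e := sum_mul_lab h0 hs hL d1 fW (fun _ => 1)
        simp only [mul_one] at e
        have hcard : (0 : ℝ) < #(box L) := by rw [card_box]; positivity
        rw [mdens, le_div_iff₀ hcard, e, card_box] at hmass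
        push_cast at hmass
        have hk : c * (2 * (Q0 : ℝ) ^ 2 * (s0 : ℝ) ^ 2) =
            (((L : ℝ) / (Q0 * s0)) ^ 2)⁻¹ * (c * (2 * (L : ℝ) ^ 2)) := by
          field_simp
        rw [hk, inv_mul_le_iff₀ (by positivity)]
        exact hmass) h1 h2
    calc (c ^ 3 / 32 - 2 * δ') * (2 * (L : ℝ) ^ 2)
        = ((L : ℝ) / (Q0 * s0)) ^ 2 *
            ((c ^ 3 / 32 - 2 * δ') * (2 * (Q0 : ℝ) ^ 2 * (s0 : ℝ) ^ 2)) := by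
          field_simp
      _ ≤ _ := mul_le_mul_of_nonneg_left hm (by positivity)
  have hfin : (c ^ 3 / 32 - 2 * δ' - 4 / G) * (2 * (L : ℝ) ^ 2) ≤
      ∑ w ∈ box L, (if GoodW s0 G L w then fW w * R (lab Q0 s0 L w) else 0) := by
    have e : (c ^ 3 / 32 - 2 * δ' - 4 / G) * (2 * (L : ℝ) ^ 2) =
      (c ^ 3 / 32 - 2 * δ') * (2 * (L : ℝ) ^ 2) - (4 / G) * (2 * (L : ℝ) ^ 2) := by ring
    rw [e]; linarith
  calc 2 * (L : ℝ) ^ 2 * ((Ly : ℝ) / Q') ^ 2 * (c ^ 3 / 32 - 2 * δ' - 4 / G)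
      = ((Ly : ℝ) / Q') ^ 2 * ((c ^ 3 / 32 - 2 * δ' - 4 / G) * (2 * (L : ℝ) ^ 2)) := by ring
    _ ≤ _ := mul_le_mul_of_nonneg_left hfin (by positivity)

/-- lower bound for the main term -/
theorem main_lower {Q0 s0 Q' T h L G : ℕ} (h0 : 0 < Q0) (hs : 0 < s0) (hQ : 0 < Q')
    (hT : 0 < T) (hh : 0 < h) (hL : 0 < L) (hG : 0 < G) (hd : Q0 ∣ Q')
    (d1 : Q0 * s0 ∣ L) (d2 : 2 * Q' ∣ L) (d3 : s0 * G ∣ L) (d4 : 2 * Q' * Q0 * s0 ∣ L)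
    {δ : ℝ} (hδ0 : 0 ≤ δ) (hδ : 3 * δ + 5 / (T : ℝ) ≤ 1 / ((s0 : ℝ) * G))
    {N z : ℤ√2} (hN : 4 * (Q' : ℤ√2) * N = z ^ 3 - 2 * Zsqrtd.sqrtd)
    (hz : Near δ (h * (2 * Q') * T) z)
    {fW fY fX : ℤ√2 → ℝ} (hW : ∀ x, 0 ≤ fW x ∧ fW x ≤ 1)
    (hY : ∀ x, 0 ≤ fY x ∧ fY x ≤ 1) (hX : ∀ x, 0 ≤ fX x ∧ fX x ≤ 1) {c δ' : ℝ} (hc : 0 ≤ c)
    (hmass : c ≤ mdens L fW)
    (h1 : ∀ ℓ ∈ labs Q0 s0, |cden Q0 s0 L fW ℓ - cden Q0 s0 (h ^ 3 * L) fY ℓ| ≤ δ')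
    (h2 : ∀ ℓ ∈ labs Q0 s0, |cden Q0 s0 L fW ℓ -
      cden Q0 s0 (h ^ 3 * (2 * Q') ^ 2 * T ^ 3 * L) fX ℓ| ≤ δ') :
    #(Om Q' L (h ^ 3 * L)) * (c ^ 3 / 32 - 2 * δ' - 4 / G -
        √(inc Q0 s0 (2 * Q' * Q0) s0 (h ^ 3 * L) fY)) ≤
      ∑ p ∈ Om Q' L (h ^ 3 * L), fW p.1 * fY p.2 *
        (if xx Q' N p ∈ box (h ^ 3 * (2 * Q') ^ 2 * T ^ 3 * L) then
          cav Q0 s0 (h ^ 3 * (2 * Q') ^ 2 * T ^ 3 * L) fX (xx Q' N p) else 0) := by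
  set Lx := h ^ 3 * (2 * Q') ^ 2 * T ^ 3 * L with hLx
  have hLy : 0 < h ^ 3 * L := by positivity
  have m1 := main_cells (Lx := Lx) h0 hs hQ hL hLy hG hd d1 (d2.mul_left _) d3 (d4.mul_left _) N
    hW hY hX hc hmass h1 h2
  have m2 := err_one h0 hs hQ hL hLy hd d2 (d4.mul_left (h ^ 3)) fY
    (Phi Q0 s0 G L Lx Q' N fW fX)
    (fun w y => abs_le.mpr ⟨le_trans (by norm_num) (Phi_nonneg hW hX w y),
      Phi_le_one hW hX w y⟩)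
    (fun w y y' _ _ a1 a2 a3 a4 => Phi_congr hQ a1 a2 a3 a4)
  have m3 : ∑ p ∈ Om Q' L (h ^ 3 * L), fY p.2 * Phi Q0 s0 G L Lx Q' N fW fX p.1 p.2 ≤
      ∑ p ∈ Om Q' L (h ^ 3 * L), fW p.1 * fY p.2 *
        (if xx Q' N p ∈ box Lx then cav Q0 s0 Lx fX (xx Q' N p) else 0) := by
    refine sum_le_sum fun p hp => ?_
    by_cases hg : GoodW s0 G L p.1
    · obtain ⟨a1, a2, a3⟩ := lab_xx hQ hT hh hL hs hG hδ0 hδ hN hz hp hg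
      rw [if_pos a1, Phi, if_pos hg, cav, lab, a2, a3]
      have : (xx Q' N (p.1, p.2)) = xx Q' N p := rfl
      rw [this]
      apply le_of_eq; ring
    · rw [Phi, if_neg hg, mul_zero]
      apply mul_nonneg (mul_nonneg (hW _).1 (hY _).1)
      split_ifs
      · exact cden_nonneg _ _ _ (fun x => (hX x).1) _
      · exact le_rfl
  have m4 : ∑ p ∈ Om Q' L (h ^ 3 * L), fY p.2 * Phi Q0 s0 G L Lx Q' N fW fX p.1 p.2 =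
      ∑ p ∈ Om Q' L (h ^ 3 * L), (fY p.2 - cav Q0 s0 (h ^ 3 * L) fY p.2) *
        Phi Q0 s0 G L Lx Q' N fW fX p.1 p.2 +
      ∑ p ∈ Om Q' L (h ^ 3 * L), cav Q0 s0 (h ^ 3 * L) fY p.2 *
        Phi Q0 s0 G L Lx Q' N fW fX p.1 p.2 := by
    rw [← sum_add_distrib]
    refine sum_congr rfl fun p _ => by ring
  rw [m4] at m3
  have m5 := (abs_le.mp m2).1
  have e : (#(Om Q' L (h ^ 3 * L)) : ℝ) * (c ^ 3 / 32 - 2 * δ' - 4 / G -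
        √(inc Q0 s0 (2 * Q' * Q0) s0 (h ^ 3 * L) fY)) =
      #(Om Q' L (h ^ 3 * L)) * (c ^ 3 / 32 - 2 * δ' - 4 / G) -
      #(Om Q' L (h ^ 3 * L)) * √(inc Q0 s0 (2 * Q' * Q0) s0 (h ^ 3 * L) fY) := by ring
  rw [e]
  linarith

end Pool.Agent.helper1.PR
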