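import Pool.Agent.helper1.PR.Key2
import Pool.Agent.helper87.PR.J5

/-!
PR project: the key lemma.
-/

namespace Pool.Agent.helper1.PR

open Finset

theorem abs_dev_le_one {M s Λ : ℕ} {f : ℤ√2 → ℝ} (hf : ∀ x, 0 ≤ f x ∧ f x ≤ 1) (x : ℤ√2) :
    |dev M s Λ f x| ≤ 1 := by
  unfold dev
  split_ifs
  · have h1 := hf x
    have h2 : 0 ≤ cav M s Λ f x := cden_nonneg _ _ _ (fun x => (hf x).1) _
    have h3 : cav M s Λ f x ≤ 1 := cden_le_one _ _ _ (fun x => (hf x).2) _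
    rw [abs_le]; constructor <;> linarith
  · simp

/-- the counting lemma for fixed parameters -/
theorem key_step {Q0 s0 Q' T h L G M' s' : ℕ} (h0 : 0 < Q0) (hs : 0 < s0) (hQ : 0 < Q')
    (hT : 0 < T) (hh : 0 < h) (hL : 0 < L) (hG : 0 < G) (hd : Q0 ∣ Q')
    (hs' : 0 < s')
    (d1 : Q0 * s0 ∣ L) (d2 : 2 * Q' ∣ L) (d3 : s0 * G ∣ L) (d4 : 2 * Q' * Q0 * s0 ∣ L)
    (d5 : 2 * Q' * Q0 ∣ M') (d6 : s0 ∣ s')
    {δ : ℝ} (hδ0 : 0 ≤ δ) (hδ : 3 * δ + 5 / (T : ℝ) ≤ 1 / ((s0 : ℝ) * G))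
    {Z : Finset (ℤ√2)} (hZ : Z.Nonempty) (N : ℤ√2 → ℤ√2)
    (hN : ∀ z ∈ Z, 4 * (Q' : ℤ√2) * N z = z ^ 3 - 2 * Zsqrtd.sqrtd)
    (hz : ∀ z ∈ Z, Near δ (h * (2 * Q') * T) z)
    {fW fY fX : ℤ√2 → ℝ} (hW : ∀ x, 0 ≤ fW x ∧ fW x ≤ 1)
    (hY : ∀ x, 0 ≤ fY x ∧ fY x ≤ 1) (hX : ∀ x, 0 ≤ fX x ∧ fX x ≤ 1) {c δ' ε C : ℝ} (hc : 0 ≤ c)
    (hmass : c ≤ mdens L fW)
    (hincY : inc Q0 s0 M' s' (h ^ 3 * L) fY ≤ ε)
    (h1 : ∀ ℓ ∈ labs Q0 s0, |cden Q0 s0 L fW ℓ - cden Q0 s0 (h ^ 3 * L) fY ℓ| ≤ δ')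
    (h2 : ∀ ℓ ∈ labs Q0 s0, |cden Q0 s0 L fW ℓ -
      cden Q0 s0 (h ^ 3 * (2 * Q') ^ 2 * T ^ 3 * L) fX ℓ| ≤ δ')
    (hC : 0 ≤ C)
    (hcorr : ∀ z₁ ∈ Z, ∀ z₂ ∈ Z, z₁ ≠ z₂ → ∑ p ∈ Om Q' L (h ^ 3 * L),
      dev Q0 s0 (h ^ 3 * (2 * Q') ^ 2 * T ^ 3 * L) fX (xx Q' (N z₁) p) *
        dev Q0 s0 (h ^ 3 * (2 * Q') ^ 2 * T ^ 3 * L) fX (xx Q' (N z₂) p) ≤
          C * #(Om Q' L (h ^ 3 * L)))
    (hfin : √(1 / #Z + C) < c ^ 3 / 32 - 2 * δ' - 4 / G - √ε) :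
    ∃ z ∈ Z, ∃ w ∈ box L, ∃ y ∈ box (h ^ 3 * L),
      ∃ x ∈ box (h ^ 3 * (2 * Q') ^ 2 * T ^ 3 * L),
        2 * (2 * (Q' : ℤ√2)) * x + 2 * Zsqrtd.sqrtd * y = w * z ^ 3 ∧
          fW w ≠ 0 ∧ fY y ≠ 0 ∧ fX x ≠ 0 := by
  set Lx := h ^ 3 * (2 * Q') ^ 2 * T ^ 3 * L with hLx
  set Ω := Om Q' L (h ^ 3 * L) with hΩ
  by_contra hno
  push Not at hno
  have hΩpos : (0 : ℝ) < #Ω := by
    rw [hΩ, card_Om hQ (d2.mul_left _)]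
    have : (0 : ℝ) < L := by exact_mod_cast hL
    have : (0 : ℝ) < h := by exact_mod_cast hh
    have : (0 : ℝ) < Q' := by exact_mod_cast hQ
    push_cast
    positivity
  have hZpos : (0 : ℝ) < #Z := by exact_mod_cast hZ.card_pos
  -- every product vanishes
  have hzero : ∀ z ∈ Z, ∀ p ∈ Ω, fW p.1 * fY p.2 *
      (if xx Q' (N z) p ∈ box Lx then fX (xx Q' (N z) p) else 0) = 0 := by
    intro z hz' p hp
    by_cases hb : xx Q' (N z) p ∈ box Lx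
    · rw [if_pos hb]
      have hp' := hp
      rw [hΩ, Om, mem_filter, mem_product] at hp'
      have := hno z hz' p.1 hp'.1.1 p.2 hp'.1.2 (xx Q' (N z) p) hb (xx_eq hQ (hN z hz') hp)
      by_cases a1 : fW p.1 = 0
      · rw [a1]; ring
      by_cases a2 : fY p.2 = 0
      · rw [a2]; ring
      rw [this a1 a2]; ring
    · rw [if_neg hb, mul_zero]
  -- main terms
  have hinc1 : inc Q0 s0 (2 * Q' * Q0) s0 (h ^ 3 * L) fY ≤ ε :=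
    (inc_mono (Dvd.intro_left _ rfl) dvd_rfl d5 d6 hs' _ _).trans hincY
  have hlow : ∀ z ∈ Z, #Ω * (c ^ 3 / 32 - 2 * δ' - 4 / G - √ε) ≤
      ∑ p ∈ Ω, fW p.1 * fY p.2 *
        (if xx Q' (N z) p ∈ box Lx then cav Q0 s0 Lx fX (xx Q' (N z) p) else 0) := by
    intro z hz'
    have := main_lower h0 hs hQ hT hh hL hG hd d1 d2 d3 d4 hδ0 hδ (hN z hz') (hz z hz') hW hY hX
      hc hmass h1 h2
    refine le_trans (mul_le_mul_of_nonneg_left ?_ hΩpos.le) this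
    have := Real.sqrt_le_sqrt hinc1
    linarith
  -- sum over `z`
  have hsum : ∑ z ∈ Z, ∑ p ∈ Ω, fW p.1 * fY p.2 *
        (if xx Q' (N z) p ∈ box Lx then cav Q0 s0 Lx fX (xx Q' (N z) p) else 0) =
      - ∑ p ∈ Ω, (fW p.1 * fY p.2) * ∑ z ∈ Z, dev Q0 s0 Lx fX (xx Q' (N z) p) := by
    rw [← sum_neg_distrib]
    rw [sum_comm]
    refine sum_congr rfl fun p hp => ?_
    rw [mul_sum, ← sum_neg_distrib]
    refine sum_congr rfl fun z hz' => ?_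
    have := hzero z hz' p hp
    unfold dev
    by_cases hb : xx Q' (N z) p ∈ box Lx
    · simp only [hb, if_true] at this ⊢
      rw [mul_sub, this]; ring
    · simp only [hb, if_false]; ring
  have hcs := cs_sum Ω Z hZ (fun z p => dev Q0 s0 Lx fX (xx Q' (N z) p))
    (fun p => fW p.1 * fY p.2) (fun p _ => by
      rw [abs_le]
      have a1 := hW p.1
      have a2 := hY p.2
      have : 0 ≤ fW p.1 * fY p.2 := mul_nonneg a1.1 a2.1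
      exact ⟨by linarith, mul_le_one₀ a1.2 a2.1 a2.2⟩)
    (fun z _ p _ => abs_dev_le_one hX _) hC hcorr
  have hlow2 : #Z * (#Ω * (c ^ 3 / 32 - 2 * δ' - 4 / G - √ε)) ≤
      ∑ z ∈ Z, ∑ p ∈ Ω, fW p.1 * fY p.2 *
        (if xx Q' (N z) p ∈ box Lx then cav Q0 s0 Lx fX (xx Q' (N z) p) else 0) := by
    rw [← nsmul_eq_mul]
    exact card_nsmul_le_sum _ _ _ hlow
  rw [hsum] at hlow2
  have h3 := (abs_le.mp hcs).1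
  have h4 : (#Z : ℝ) * (#Ω * (c ^ 3 / 32 - 2 * δ' - 4 / G - √ε)) ≤ #Z * #Ω * √(1 / #Z + C) := by
    linarith
  have h5 : (#Z : ℝ) * #Ω * √(1 / #Z + C) <
      #Z * #Ω * (c ^ 3 / 32 - 2 * δ' - 4 / G - √ε) :=
    mul_lt_mul_of_pos_left hfin (by positivity)
  have h6 : (#Z : ℝ) * (#Ω * (c ^ 3 / 32 - 2 * δ' - 4 / G - √ε)) =
      #Z * #Ω * (c ^ 3 / 32 - 2 * δ' - 4 / G - √ε) := by ring
  linarith

/-- numerical lemma -/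
theorem num_one {θ e : ℝ} (hθ0 : 0 < θ) (hθ1 : θ ≤ 1 / 32) (he : e ≤ θ ^ 4 / 204800) :
    θ ^ 4 / 1024 + √(200 * e + θ ^ 4 / 1024) ≤ θ ^ 2 / 16 := by
  have e1 : 200 * e + θ ^ 4 / 1024 ≤ (3 / 64 * θ ^ 2) ^ 2 := by
    nlinarith [pow_pos hθ0 4]
  have e2 : √(200 * e + θ ^ 4 / 1024) ≤ 3 / 64 * θ ^ 2 := by
    rw [Real.sqrt_le_left (by positivity)]
    exact e1
  have h1 : θ ^ 2 ≤ 1 := by nlinarith
  have e3 : θ ^ 4 / 1024 ≤ θ ^ 2 / 64 := by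
    have : θ ^ 4 = θ ^ 2 * θ ^ 2 := by ring
    nlinarith [pow_pos hθ0 2]
  linarith

theorem num_two {θ n G : ℝ} (hθ0 : 0 < θ) (hθ1 : θ ≤ 1 / 32) (hG : 0 < G) (hG1 : 32 / θ ≤ G)
    (hn : 0 < n) (hn1 : 16 / θ ^ 2 ≤ n) :
    √(1 / n + θ ^ 2 / 16) < θ - 2 * (θ / 16) - 4 / G - √(θ ^ 4 / 204800) := by
  have h1 : θ ^ 2 ≤ 1 := by nlinarith
  have h4 : θ ^ 4 = θ ^ 2 * θ ^ 2 := by ring
  have e1 : √(θ ^ 4 / 204800) ≤ θ / 8 := by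
    rw [Real.sqrt_le_left (by positivity)]
    nlinarith [pow_pos hθ0 2]
  have e2 : 4 / G ≤ θ / 8 := by
    rw [div_le_iff₀ hG]
    rw [div_le_iff₀ hθ0] at hG1
    linarith
  have e3 : 1 / n ≤ θ ^ 2 / 16 := by
    rw [div_le_iff₀ hn]
    rw [div_le_iff₀ (by positivity)] at hn1
    linarith
  have e4 : √(1 / n + θ ^ 2 / 16) ≤ θ / 2 := by
    rw [Real.sqrt_le_left (by positivity)]
    nlinarith [pow_pos hθ0 2]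
  linarith

theorem key {c : ℝ} (hc : 0 < c) (hc1 : c ≤ 1) : ∃ K : ℕ, ∃ ε > (0 : ℝ), ∃ δ' > (0 : ℝ),
    ∀ Q0 s0 : ℕ, 0 < Q0 → 0 < s0 → ∃ δ > (0 : ℝ), ∃ T0 : ℕ, 0 < T0 ∧
      ∀ Q' T h : ℕ, 0 < Q' → Q0 ∣ Q' → T0 ≤ T → 0 < h → ∀ Z : Finset (ℤ√2), #Z = K →
      (∀ z ∈ Z, 0 < z.re ∧ 0 ≤ z.im ∧ Near δ (h * (2 * Q') * T) z ∧ (4 * (Q' : ℤ)) ∣ z.re ∧
        (4 * (Q' : ℤ)) ∣ z.im - 1) →
      ∃ M s D : ℕ, 0 < M ∧ 0 < s ∧ 0 < D ∧ Q0 ∣ M ∧ s0 ∣ s ∧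
        ∀ M' s' : ℕ, 0 < M' → 0 < s' → M ∣ M' → s ∣ s' → ∀ L : ℕ, 0 < L → D * M' * s' ∣ L →
        ∀ fW fY fX : ℤ√2 → ℝ, (∀ x, 0 ≤ fW x ∧ fW x ≤ 1) → (∀ x, 0 ≤ fY x ∧ fY x ≤ 1) →
        (∀ x, 0 ≤ fX x ∧ fX x ≤ 1) → c ≤ mdens L fW →
        inc Q0 s0 M' s' (h ^ 3 * L) fY ≤ ε →
        inc Q0 s0 M' s' (h ^ 3 * (2 * Q') ^ 2 * T ^ 3 * L) fX ≤ ε →
        (∀ ℓ ∈ labs Q0 s0, |cden Q0 s0 L fW ℓ - cden Q0 s0 (h ^ 3 * L) fY ℓ| ≤ δ') →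
        (∀ ℓ ∈ labs Q0 s0, |cden Q0 s0 L fW ℓ -
          cden Q0 s0 (h ^ 3 * (2 * Q') ^ 2 * T ^ 3 * L) fX ℓ| ≤ δ') →
        ∃ z ∈ Z, ∃ w ∈ box L, ∃ y ∈ box (h ^ 3 * L),
          ∃ x ∈ box (h ^ 3 * (2 * Q') ^ 2 * T ^ 3 * L),
            2 * (2 * (Q' : ℤ√2)) * x + 2 * Zsqrtd.sqrtd * y = w * z ^ 3 ∧
              fW w ≠ 0 ∧ fY y ≠ 0 ∧ fX x ≠ 0 := by
  classical
  set θ : ℝ := c ^ 3 / 32 with hθ
  have hθ0 : 0 < θ := by positivity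
  have hθ1 : θ ≤ 1 / 32 := by
    have : c ^ 3 ≤ 1 := pow_le_one₀ hc.le hc1
    rw [hθ]; linarith
  clear_value θ
  refine ⟨⌈16 / θ ^ 2⌉₊, θ ^ 4 / 204800, by positivity, θ / 16, by positivity, ?_⟩
  intro Q0 s0 h0 hs
  set G : ℕ := ⌈32 / θ⌉₊ with hGdef
  have hG1 : 32 / θ ≤ G := Nat.le_ceil _
  have hG : 0 < G := Nat.ceil_pos.mpr (by positivity)
  have hGR : (0 : ℝ) < G := by exact_mod_cast hG
  have hsR : (0 : ℝ) < s0 := by exact_mod_cast hs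
  have hsR1 : (1 : ℝ) ≤ s0 := by exact_mod_cast hs
  have hGR1 : (1 : ℝ) ≤ G := by exact_mod_cast hG
  set δ : ℝ := min (1 / 16) (1 / (6 * (s0 * G))) with hδdef
  have hδ0 : 0 < δ := by
    rw [hδdef]; exact lt_min (by norm_num) (by positivity)
  refine ⟨δ, hδ0, 10 * (s0 * G), by positivity, ?_⟩
  intro Q' T h hQ hd hTT hh Z hZK hZ
  have hT : 0 < T := lt_of_lt_of_le (by positivity) hTT
  have hTR : (0 : ℝ) < T := by exact_mod_cast hT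
  have hδ : 3 * δ + 5 / (T : ℝ) ≤ 1 / ((s0 : ℝ) * G) := by
    have e1 : δ ≤ 1 / (6 * (s0 * G)) := min_le_right _ _
    have e2 : (5 : ℝ) / T ≤ 5 / (10 * (s0 * G)) := by
      apply div_le_div_of_nonneg_left (by norm_num) (by positivity)
      exact_mod_cast hTT
    have e3 : 3 * (1 / (6 * ((s0 : ℝ) * G))) + 5 / (10 * (s0 * G)) = 1 / ((s0 : ℝ) * G) := by
      field_simp; norm_num
    linarith
  have hδ16 : δ ≤ 1 / 16 := min_le_left _ _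
  -- the numbers `N z`
  have hNex : ∀ z : ℤ√2, ∃ N : ℤ√2, z ∈ Z →
      4 * (Q' : ℤ√2) * N = z ^ 3 - 2 * Zsqrtd.sqrtd := by
    intro z
    by_cases hz : z ∈ Z
    · obtain ⟨N, hN⟩ := exists_N (hZ z hz).2.2.2.1 (hZ z hz).2.2.2.2
      exact ⟨N, fun _ => hN⟩
    · exact ⟨0, fun h => absurd h hz⟩
  choose N hN using hNex
  have hNne : ∀ z₁ ∈ Z, ∀ z₂ ∈ Z, z₁ ≠ z₂ → N z₁ ≠ N z₂ := by
    intro z₁ h1 z₂ h2 hne he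
    apply hne
    have a1 := hN z₁ h1
    have a2 := hN z₂ h2
    rw [he, a2] at a1
    have a3 : z₁ ^ 3 = z₂ ^ 3 := by
      have := congrArg (fun u => u + 2 * Zsqrtd.sqrtd) a1
      simpa using this.symm
    exact cube_inj (hZ z₁ h1).1 (hZ z₁ h1).2.1 (hZ z₂ h2).1 (hZ z₂ h2).2.1 a3
  -- the parameters of the correlation lemma
  have hcex : ∀ q : ℤ√2 × ℤ√2, ∃ M s D : ℕ, 0 < M ∧ 0 < s ∧ 0 < D ∧
      (q.1 ∈ Z → q.2 ∈ Z → q.1 ≠ q.2 → ∀ M' s' : ℕ, 0 < M' → 0 < s' → M ∣ M' → s ∣ s' →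
      ∀ L : ℕ, 0 < L → D * M' * s' ∣ L → ∀ g : ℤ√2 → ℝ, (∀ x, |g x| ≤ 1) →
      (∀ x, x ∉ box (h ^ 3 * (2 * Q') ^ 2 * T ^ 3 * L) → g x = 0) →
      |∑ p ∈ Om Q' L (h ^ 3 * L), g (xx Q' (N q.1) p) * g (xx Q' (N q.2) p)| ≤
        #(Om Q' L (h ^ 3 * L)) * (θ ^ 4 / 1024 + √(200 *
          ((∑ x ∈ box (h ^ 3 * (2 * Q') ^ 2 * T ^ 3 * L),
            (cav M' s' (h ^ 3 * (2 * Q') ^ 2 * T ^ 3 * L) g x) ^ 2) /
              #(box (h ^ 3 * (2 * Q') ^ 2 * T ^ 3 * L))) + θ ^ 4 / 1024))) := by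
    intro q
    by_cases hq : q.1 ∈ Z ∧ q.2 ∈ Z ∧ q.1 ≠ q.2
    · obtain ⟨M, s, D, hM, hs1, hD, hall⟩ := corr (N₁ := N q.1) hQ hT hh hδ16 (hN q.2 hq.2.1)
        (hZ q.2 hq.2.1).2.2.1 (hNne _ hq.1 _ hq.2.1 hq.2.2) (ε := θ ^ 4 / 1024) (by positivity)
      exact ⟨M, s, D, hM, hs1, hD, fun _ _ _ => hall⟩
    · exact ⟨1, 1, 1, one_pos, one_pos, one_pos, fun a b c => absurd ⟨a, b, c⟩ hq⟩
  choose Mf sf Df hMf hsf hDf hcorr using hcex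
  refine ⟨2 * Q' * Q0 * ∏ q ∈ Z ×ˢ Z, Mf q, s0 * ∏ q ∈ Z ×ˢ Z, sf q,
    (Q0 * s0) * (2 * Q') * (s0 * G) * (2 * Q' * Q0 * s0) * ∏ q ∈ Z ×ˢ Z, Df q, ?_, ?_, ?_, ?_, ?_,
    ?_⟩
  · have := prod_pos (s := Z ×ˢ Z) (fun q _ => hMf q)
    positivity
  · have := prod_pos (s := Z ×ˢ Z) (fun q _ => hsf q)
    positivity
  · have := prod_pos (s := Z ×ˢ Z) (fun q _ => hDf q)
    positivity
  · exact Dvd.dvd.mul_right (Dvd.intro_left _ rfl) _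
  · exact Dvd.intro _ rfl
  intro M' s' hM' hs' dM ds L hL dL fW fY fX hW hY hX hmass hincY hincX hp1 hp2
  have dD : (Q0 * s0) * (2 * Q') * (s0 * G) * (2 * Q' * Q0 * s0) * ∏ q ∈ Z ×ˢ Z, Df q ∣ L :=
    (Dvd.intro _ (by ring : _ * (M' * s') = _)).trans dL
  have dP : (Q0 * s0) * (2 * Q') * (s0 * G) * (2 * Q' * Q0 * s0) ∣ L :=
    (Dvd.intro _ rfl).trans dD
  have d1 : Q0 * s0 ∣ L := (Dvd.intro ((2 * Q') * (s0 * G) * (2 * Q' * Q0 * s0)) (by ring)).trans dP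
  have d2 : 2 * Q' ∣ L := (Dvd.intro ((Q0 * s0) * (s0 * G) * (2 * Q' * Q0 * s0)) (by ring)).trans dP
  have d3 : s0 * G ∣ L :=
    (Dvd.intro ((Q0 * s0) * (2 * Q') * (2 * Q' * Q0 * s0)) (by ring)).trans dP
  have d4 : 2 * Q' * Q0 * s0 ∣ L :=
    (Dvd.intro ((Q0 * s0) * (2 * Q') * (s0 * G)) (by ring)).trans dP
  have d5 : 2 * Q' * Q0 ∣ M' := (Dvd.intro _ rfl).trans dM
  have d6 : s0 ∣ s' := (Dvd.intro _ rfl).trans ds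
  have hKpos : 0 < ⌈16 / θ ^ 2⌉₊ := Nat.ceil_pos.mpr (by positivity)
  have hZne : Z.Nonempty := by
    rw [← card_pos, hZK]; exact hKpos
  have hZc : (16 / θ ^ 2 : ℝ) ≤ #Z := by rw [hZK]; exact Nat.le_ceil _
  have hZp : (0 : ℝ) < #Z := lt_of_lt_of_le (by positivity) hZc
  have hQ'R : (0 : ℝ) < Q' := by exact_mod_cast hQ
  refine key_step (C := θ ^ 2 / 16) (ε := θ ^ 4 / 204800) h0 hs hQ hT hh hL hG hd hs' d1 d2 d3 d4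
    d5 d6 hδ0.le hδ hZne N (fun z hz => hN z hz) (fun z hz => (hZ z hz).2.2.1) hW hY hX hc.le hmass
    hincY hp1 hp2 (by positivity) ?_ ?_
  · intro z₁ h1 z₂ h2 hne
    set Lx := h ^ 3 * (2 * Q') ^ 2 * T ^ 3 * L with hLx
    have hdd : Df (z₁, z₂) * M' * s' ∣ L := by
      refine Dvd.dvd.trans ?_ dL
      apply mul_dvd_mul_right
      apply mul_dvd_mul_right
      exact Dvd.dvd.mul_left (dvd_prod_of_mem Df (mk_mem_product h1 h2)) _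
    have hc1 := hcorr (z₁, z₂) h1 h2 hne M' s' hM' hs'
      ((Dvd.dvd.mul_left (dvd_prod_of_mem Mf (mk_mem_product h1 h2)) _).trans dM)
      ((Dvd.dvd.mul_left (dvd_prod_of_mem sf (mk_mem_product h1 h2)) _).trans ds) L hL hdd
      (dev Q0 s0 Lx fX) (fun x => abs_dev_le_one hX x)
      (fun x hx => by unfold dev; rw [if_neg hx])
    have hE : (∑ x ∈ box Lx, (cav M' s' Lx (dev Q0 s0 Lx fX) x) ^ 2) / #(box Lx) =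
        inc Q0 s0 M' s' Lx fX := by
      unfold inc
      congr 1
      refine sum_congr rfl fun x hx => ?_
      rw [cav_dev ((Dvd.intro_left _ rfl).trans d5) d6 hs' fX hx]
    rw [hE] at hc1
    refine (le_abs_self _).trans (hc1.trans ?_)
    rw [mul_comm]
    apply mul_le_mul_of_nonneg_right _ (Nat.cast_nonneg _)
    exact num_one hθ0 hθ1 hincX
  · rw [← hθ]
    exact num_two hθ0 hθ1 hGR hG1 hZp hZc

end Pool.Agent.helper1.PR
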